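import Pool.Agent.Helper61.FN.GoalsD

/-!
# Project FN (MP_06d934_gt), packet FN-LKA: the Ricci components of type `A₃` and the system `Sols`
-/

set_option autoImplicit false

namespace Pool.Agent.Helper44.FN

open Finset
open Pool.Agent.Helper61.FN

theorem lka_key (N a A B p q : ℝ) (hN : N ≠ 0)
    (h : 1 / (2 * a) + (p / (4 * N) * A + q / (4 * N) * B) = 1 / 2) :
    N * a⁻¹ + p / 2 * A + q / 2 * B = N := by
  have h2 : N * N⁻¹ = 1 := mul_inv_cancel₀ hN
  linear_combination (2 * N) * h - (p / 2 * A + q / 2 * B) * h2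

theorem lka_sum (i j a b : Fin 4) (f : Fin 4 → ℝ) (hab : a ≠ b)
    (h : ∀ k : Fin 4, (k ≠ i ∧ k ≠ j) ↔ (k = a ∨ k = b)) :
    ∑ k with k ≠ i ∧ k ≠ j, f k = f a + f b := by
  have h1 : (Finset.univ.filter fun k : Fin 4 ↦ k ≠ i ∧ k ≠ j) = {a, b} := by
    ext k
    simp only [mem_filter, mem_univ, true_and, mem_insert, mem_singleton]
    exact h k
  rw [h1, sum_pair hab]

theorem lka_ric (n : Fin 4 → ℕ) (hn : ∀ i, 0 < n i) (x : Fin 4 → Fin 4 → ℝ) (i j a b : Fin 4)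
    (hab : a ≠ b) (h : ∀ k : Fin 4, (k ≠ i ∧ k ≠ j) ↔ (k = a ∨ k = b))
    (hE : Pool.Agent.Helper83.EIN.ric n x i j = 1 / 2) :
    (∑ l, (n l : ℝ)) * (x i j)⁻¹ +
      (n a : ℝ) / 2 * (x i j / (x i a * x j a) - x i a / (x i j * x j a) - x j a / (x i j * x i a)) +
      (n b : ℝ) / 2 * (x i j / (x i b * x j b) - x i b / (x i j * x j b) - x j b / (x i j * x i b)) =
      ∑ l, (n l : ℝ) := by
  refine lka_key _ _ _ _ _ _ ?_ ?_
  · have h0 : (0 : ℝ) < ∑ l, (n l : ℝ) :=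
      sum_pos (fun l _ ↦ Nat.cast_pos.2 (hn l)) ⟨0, mem_univ _⟩
    exact h0.ne'
  · rw [← hE]
    unfold Pool.Agent.Helper83.EIN.ric
    rw [lka_sum i j a b _ hab h]

theorem goalLKA : G_LKA := by
  intro n hn x hx hE
  have e0 := lka_ric n hn x 0 1 2 3 (by decide) (by decide) (hE 0 1 (by decide))
  have e1 := lka_ric n hn x 0 2 1 3 (by decide) (by decide) (hE 0 2 (by decide))
  have e2 := lka_ric n hn x 0 3 1 2 (by decide) (by decide) (hE 0 3 (by decide))
  have e3 := lka_ric n hn x 1 2 0 3 (by decide) (by decide) (hE 1 2 (by decide))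
  have e4 := lka_ric n hn x 1 3 0 2 (by decide) (by decide) (hE 1 3 (by decide))
  have e5 := lka_ric n hn x 2 3 0 1 (by decide) (by decide) (hE 2 3 (by decide))
  rw [hx.symm 2 1] at e1
  rw [hx.symm 3 1, hx.symm 3 2] at e2
  rw [hx.symm 1 0, hx.symm 2 0] at e3
  rw [hx.symm 1 0, hx.symm 3 0, hx.symm 3 2] at e4
  rw [hx.symm 2 0, hx.symm 3 0, hx.symm 2 1, hx.symm 3 1] at e5
  rw [Fin.sum_univ_four] at e0 e1 e2 e3 e4 e5
  refine ⟨fun e ↦ ?_, fun e ↦ ?_⟩
  · have h1 : (en e).1 ≠ (en e).2 := by revert e; decide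
    exact (hx.pos _ _ h1).ne'
  · rw [Fin.sum_univ_four]
    fin_cases e
    · simp [Fin.sum_univ_succ, cA, dA, mA, mon, Fin.prod_univ_succ, en]
      linear_combination (-(n 0 : ℝ) * n 1) * e0
    · simp [Fin.sum_univ_succ, cA, dA, mA, mon, Fin.prod_univ_succ, en]
      linear_combination (-(n 0 : ℝ) * n 2) * e1
    · simp [Fin.sum_univ_succ, cA, dA, mA, mon, Fin.prod_univ_succ, en]
      linear_combination (-(n 0 : ℝ) * n 3) * e2
    · simp [Fin.sum_univ_succ, cA, dA, mA, mon, Fin.prod_univ_succ, en]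
      linear_combination (-(n 1 : ℝ) * n 2) * e3
    · simp [Fin.sum_univ_succ, cA, dA, mA, mon, Fin.prod_univ_succ, en]
      linear_combination (-(n 1 : ℝ) * n 3) * e4
    · simp [Fin.sum_univ_succ, cA, dA, mA, mon, Fin.prod_univ_succ, en]
      linear_combination (-(n 2 : ℝ) * n 3) * e5

end Pool.Agent.Helper44.FN
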